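import Mathlib
import Pool.Agent.Y291.PA.Blaschke

/-!
# Real zeros of signed sums of `1 / (t ^ 2 + n ^ 2)`

`F(z) = ∑ a_n / (z ^ 2 + n ^ 2)` is holomorphic in `Re z > 0` and bounded in `Re z > 1`, so its zeros
`t_k > 1` satisfy the Blaschke condition `∑ 1 / t_k < ∞`, hence there are `o(X)` zeros in `(-X, X)`.
-/

open Filter Topology Metric Complex

namespace Pool.Agent.Results.MP_51e19e_an.FewZeros

/-- The function `f_a(t) = ∑_{n ≥ 1} a_n / (t ^ 2 + n ^ 2)`; the term `a n` of the Lean sequence is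
the sign `a_{n+1}`. -/
noncomputable def f (a : ℕ → ℝ) (t : ℝ) : ℝ := ∑' n : ℕ, a n / (t ^ 2 + ((n : ℝ) + 1) ^ 2)

/-- The complex version. -/
private noncomputable def F (a : ℕ → ℝ) (z : ℂ) : ℂ :=
  ∑' n : ℕ, (a n : ℂ) / (z ^ 2 + ((n : ℂ) + 1) ^ 2)

private lemma F_ofReal (a : ℕ → ℝ) (t : ℝ) : F a (t : ℂ) = ((f a t : ℝ) : ℂ) := by
  unfold F f
  rw [Complex.ofReal_tsum]
  refine tsum_congr fun n => ?_
  push_cast
  rfl

private lemma summable_sq : Summable fun n : ℕ => 1 / ((n : ℝ) + 1) ^ 2 := by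
  have h := (summable_nat_add_iff 1).mpr (Real.summable_one_div_nat_pow.mpr (one_lt_two : 1 < 2))
  refine h.congr fun n => ?_
  push_cast
  rfl

/-- lower bound for the denominators far out -/
private lemma far {z : ℂ} {R : ℝ} (hz : ‖z‖ ≤ R) {n : ℕ} (hn : 2 * R ≤ n + 1) :
    ((n : ℝ) + 1) ^ 2 / 2 ≤ ‖z ^ 2 + ((n : ℂ) + 1) ^ 2‖ := by
  have hR : 0 ≤ R := (norm_nonneg z).trans hz
  have h1 : ‖((n : ℂ) + 1) ^ 2‖ = ((n : ℝ) + 1) ^ 2 := by
    rw [norm_pow]
    have : ((n : ℂ) + 1) = (((n + 1 : ℕ) : ℂ)) := by push_cast; rfl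
    rw [this, Complex.norm_natCast]
    push_cast
    rfl
  have h2 : ‖z ^ 2‖ ≤ R ^ 2 := by
    rw [norm_pow]
    exact pow_le_pow_left₀ (norm_nonneg z) hz 2
  have h3 : ‖((n : ℂ) + 1) ^ 2‖ - ‖z ^ 2‖ ≤ ‖z ^ 2 + ((n : ℂ) + 1) ^ 2‖ := by
    have := norm_sub_norm_le (((n : ℂ) + 1) ^ 2) (-(z ^ 2))
    rw [norm_neg, sub_neg_eq_add] at this
    rw [add_comm (z ^ 2)]
    exact this
  rw [h1] at h3
  nlinarith

private lemma abs_le_one {a : ℕ → ℝ} (ha : ∀ n, a n = 1 ∨ a n = -1) (n : ℕ) : |a n| ≤ 1 := by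
  rcases ha n with h | h <;> simp [h]

private lemma differentiableAt_F {a : ℕ → ℝ} (ha : ∀ n, a n = 1 ∨ a n = -1) {z₀ : ℂ}
    (h0 : ∀ n : ℕ, z₀ ^ 2 + ((n : ℂ) + 1) ^ 2 ≠ 0) : DifferentiableAt ℂ (F a) z₀ := by
  set R : ℝ := ‖z₀‖ + 1 with hR
  obtain ⟨N, hN⟩ := exists_nat_ge (2 * R)
  set U : Set ℂ := ball 0 R with hU
  have hUo : IsOpen U := isOpen_ball
  have hz0U : z₀ ∈ U := by
    rw [hU, mem_ball_zero_iff]
    linarith
  have hfar : ∀ (n : ℕ) (w : ℂ), w ∈ U →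
      ((n + N : ℕ) : ℝ) + 1 ≤ ((n + N : ℕ) : ℝ) + 1 ∧
      (((n + N : ℕ) : ℝ) + 1) ^ 2 / 2 ≤ ‖w ^ 2 + (((n + N : ℕ) : ℂ) + 1) ^ 2‖ := by
    intro n w hw
    refine ⟨le_rfl, far (R := R) (mem_ball_zero_iff.mp hw).le ?_⟩
    push_cast
    have : (0 : ℝ) ≤ n := Nat.cast_nonneg n
    linarith
  -- the tail is differentiable
  have htail : DifferentiableOn ℂ
      (fun z => ∑' n : ℕ, (a (n + N) : ℂ) / (z ^ 2 + (((n + N : ℕ) : ℂ) + 1) ^ 2)) U := by
    have hu : Summable fun n : ℕ => 2 * (1 / (((n + N : ℕ) : ℝ) + 1) ^ 2) :=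
      ((summable_nat_add_iff N).mpr summable_sq).mul_left 2
    refine Complex.differentiableOn_tsum_of_summable_norm hu ?_ hUo ?_
    · intro n w hw
      refine (DifferentiableAt.div (by fun_prop) (by fun_prop) ?_).differentiableWithinAt
      have h1 := (hfar n w hw).2
      have h2 : 0 < (((n + N : ℕ) : ℝ) + 1) ^ 2 / 2 := by positivity
      exact norm_pos_iff.mp (h2.trans_le h1)
    · intro n w hw
      have h1 := (hfar n w hw).2
      have h2 : 0 < (((n + N : ℕ) : ℝ) + 1) ^ 2 / 2 := by positivity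
      rw [norm_div, Complex.norm_real, Real.norm_eq_abs]
      calc |a (n + N)| / ‖w ^ 2 + (((n + N : ℕ) : ℂ) + 1) ^ 2‖
          ≤ 1 / ((((n + N : ℕ) : ℝ) + 1) ^ 2 / 2) :=
            div_le_div₀ zero_le_one (abs_le_one ha _) h2 h1
        _ = 2 * (1 / (((n + N : ℕ) : ℝ) + 1) ^ 2) := by field_simp
  have hfin : DifferentiableAt ℂ
      (fun z => ∑ n ∈ Finset.range N, (a n : ℂ) / (z ^ 2 + ((n : ℂ) + 1) ^ 2)) z₀ := by
    refine DifferentiableAt.fun_sum fun n _ => ?_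
    exact DifferentiableAt.div (by fun_prop) (by fun_prop) (h0 n)
  have hsum : ∀ w ∈ U, Summable fun n : ℕ => (a n : ℂ) / (w ^ 2 + ((n : ℂ) + 1) ^ 2) := by
    intro w hw
    rw [← summable_nat_add_iff N]
    have hu : Summable fun n : ℕ => 2 * (1 / (((n + N : ℕ) : ℝ) + 1) ^ 2) :=
      ((summable_nat_add_iff N).mpr summable_sq).mul_left 2
    refine Summable.of_norm_bounded hu fun n => ?_
    have h1 := (hfar n w hw).2
    have h2 : 0 < (((n + N : ℕ) : ℝ) + 1) ^ 2 / 2 := by positivity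
    rw [norm_div, Complex.norm_real, Real.norm_eq_abs]
    calc |a (n + N)| / ‖w ^ 2 + (((n + N : ℕ) : ℂ) + 1) ^ 2‖
        ≤ 1 / ((((n + N : ℕ) : ℝ) + 1) ^ 2 / 2) :=
          div_le_div₀ zero_le_one (abs_le_one ha _) h2 h1
      _ = 2 * (1 / (((n + N : ℕ) : ℝ) + 1) ^ 2) := by field_simp
  have heq : F a =ᶠ[𝓝 z₀] fun z =>
      (∑ n ∈ Finset.range N, (a n : ℂ) / (z ^ 2 + ((n : ℂ) + 1) ^ 2))
        + ∑' n : ℕ, (a (n + N) : ℂ) / (z ^ 2 + (((n + N : ℕ) : ℂ) + 1) ^ 2) := by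
    filter_upwards [hUo.mem_nhds hz0U] with w hw
    exact ((hsum w hw).sum_add_tsum_nat_add N).symm
  exact (hfin.add (htail.differentiableAt (hUo.mem_nhds hz0U))).congr_of_eventuallyEq heq

/-- in the right half plane the denominators do not vanish -/
private lemma den_ne_of_re_pos {z : ℂ} (hz : 0 < z.re) (n : ℕ) : z ^ 2 + ((n : ℂ) + 1) ^ 2 ≠ 0 := by
  intro h
  have e : z ^ 2 + ((n : ℂ) + 1) ^ 2 = (z - (n + 1) * I) * (z + (n + 1) * I) := by
    ring_nf
    rw [I_sq]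
    ring
  rw [e] at h
  rcases mul_eq_zero.mp h with h | h
  · have := congrArg Complex.re h
    simp at this
    linarith
  · have := congrArg Complex.re h
    simp at this
    linarith

/-- in the unit disc the denominators do not vanish -/
private lemma den_ne_of_strip {z : ℂ} (hz : |z.im| < 1) (n : ℕ) : z ^ 2 + ((n : ℂ) + 1) ^ 2 ≠ 0 := by
  intro h
  have e : z ^ 2 + ((n : ℂ) + 1) ^ 2 = (z - (n + 1) * I) * (z + (n + 1) * I) := by
    ring_nf
    rw [I_sq]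
    ring
  rw [e] at h
  have hn : (0 : ℝ) ≤ n := Nat.cast_nonneg n
  obtain ⟨h1, h2⟩ := abs_lt.mp hz
  rcases mul_eq_zero.mp h with h | h
  · have := congrArg Complex.im h
    simp at this
    linarith
  · have := congrArg Complex.im h
    simp at this
    linarith

/-- bound for a single term in `Re z ≥ 1` -/
private lemma term_bound {z : ℂ} (hz : 1 ≤ z.re) (n : ℕ) (m : ℤ) (hm : |(|z.im|) - m| ≤ 1 / 2) :
    1 / ‖z ^ 2 + ((n : ℂ) + 1) ^ 2‖
      ≤ 1 / ((n : ℝ) + 1) ^ 2 + 4 * (1 / (1 + (((n : ℤ) + 1 - m : ℤ) : ℝ) ^ 2)) := by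
  set y : ℝ := |z.im| with hy
  set k : ℝ := (((n : ℤ) + 1 - m : ℤ) : ℝ) with hk
  set N : ℝ := (n : ℝ) + 1 with hN
  have hN1 : 1 ≤ N := by
    have : (0 : ℝ) ≤ n := Nat.cast_nonneg n
    linarith
  have hy0 : 0 ≤ y := abs_nonneg _
  have hysq : y ^ 2 = z.im ^ 2 := sq_abs _
  have hkN : k = N - m := by rw [hk, hN]; push_cast; ring
  -- squared norm
  have hsq : ‖z ^ 2 + ((n : ℂ) + 1) ^ 2‖ ^ 2
      = (z.re ^ 2 + (N - y) ^ 2) * (z.re ^ 2 + (N + y) ^ 2) := by
    rw [Complex.sq_norm, Complex.normSq_apply]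
    have e1 : (z ^ 2 + ((n : ℂ) + 1) ^ 2).re = z.re ^ 2 - z.im ^ 2 + N ^ 2 := by
      simp [pow_two, hN]
    have e2 : (z ^ 2 + ((n : ℂ) + 1) ^ 2).im = 2 * z.re * z.im := by
      simp [pow_two]
      ring
    rw [e1, e2]
    have : (z.re ^ 2 - z.im ^ 2 + N ^ 2) * (z.re ^ 2 - z.im ^ 2 + N ^ 2)
        + (2 * z.re * z.im) * (2 * z.re * z.im)
        = (z.re ^ 2 - y ^ 2 + N ^ 2) ^ 2 + 4 * z.re ^ 2 * y ^ 2 := by
      rw [hysq]; ring
    rw [this]
    ring
  -- lower bound of the norm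
  have hw : (1 + k ^ 2) / 4 ≤ 1 + (N - y) ^ 2 := by
    have h1 : |k| ≤ |N - y| + 1 / 2 := by
      have e : k = (N - y) + (y - m) := by rw [hkN]; ring
      rw [e]
      exact (abs_add_le _ _).trans (by linarith)
    have h2 : k ^ 2 ≤ (|N - y| + 1 / 2) ^ 2 := by
      rw [← sq_abs k]
      exact pow_le_pow_left₀ (abs_nonneg _) h1 2
    have h3 : |N - y| ^ 2 = (N - y) ^ 2 := sq_abs _
    nlinarith [sq_nonneg (|N - y| - 1)]
  set D : ℝ := ‖z ^ 2 + ((n : ℂ) + 1) ^ 2‖ with hD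
  have hD0 : 0 < D := norm_pos_iff.mpr (den_ne_of_re_pos (by linarith) n)
  have hlow : N ^ 2 * (1 + (N - y) ^ 2) ≤ D ^ 2 := by
    rw [hsq, mul_comm]
    apply mul_le_mul
    · nlinarith
    · nlinarith
    · positivity
    · positivity
  -- AM-GM
  set p : ℝ := 1 / N with hp
  set w : ℝ := 1 + (N - y) ^ 2 with hwd
  have hw0 : 0 < w := by positivity
  have h4 : (1 / D) ^ 2 ≤ (1 / N ^ 2) * (1 / w) := by
    rw [div_pow, one_pow, div_mul_div_comm, one_mul]
    exact one_div_le_one_div_of_le (by positivity) hlow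
  have h5 : 1 / D ≤ 1 / N ^ 2 + 1 / w := by
    have h6 : 0 ≤ 1 / N ^ 2 := by positivity
    have h7 : 0 ≤ 1 / w := by positivity
    apply le_of_sq_le_sq _ (by positivity)
    nlinarith [mul_nonneg h6 h7]
  have h8 : 1 / w ≤ 4 * (1 / (1 + k ^ 2)) := by
    have h9 : 0 < (1 + k ^ 2) / 4 := by positivity
    calc 1 / w ≤ 1 / ((1 + k ^ 2) / 4) := one_div_le_one_div_of_le h9 hw
      _ = 4 * (1 / (1 + k ^ 2)) := by field_simp
  linarith

private lemma summable_int : Summable fun k : ℤ => 1 / (1 + (k : ℝ) ^ 2) := by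
  have h := (Real.summable_one_div_int_pow (p := 2)).mpr one_lt_two
  have h1 : Summable fun k : ℤ => 1 / (k : ℝ) ^ 2 + (if k = 0 then (1 : ℝ) else 0) := by
    refine h.add ?_
    exact summable_of_hasFiniteSupport (Set.Finite.subset (Set.finite_singleton (0 : ℤ))
      (fun k hk => by
        by_contra hne
        simp only [Set.mem_singleton_iff] at hne
        simp [hne] at hk))
  refine Summable.of_nonneg_of_le (fun k => by positivity) (fun k => ?_) h1
  by_cases hk : k = 0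
  · simp [hk]
  · rw [if_neg hk, add_zero]
    have : (k : ℝ) ≠ 0 := by exact_mod_cast hk
    have h2 : 0 < (k : ℝ) ^ 2 := by positivity
    exact one_div_le_one_div_of_le h2 (by linarith)

/-- `F` is bounded in the half plane `Re z ≥ 1`. -/
private lemma F_bounded {a : ℕ → ℝ} (ha : ∀ n, a n = 1 ∨ a n = -1) :
    ∃ M : ℝ, 0 < M ∧ ∀ z : ℂ, 1 ≤ z.re → ‖F a z‖ ≤ M := by
  set A : ℝ := ∑' n : ℕ, 1 / ((n : ℝ) + 1) ^ 2 with hA
  set B : ℝ := ∑' k : ℤ, 1 / (1 + (k : ℝ) ^ 2) with hB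
  have hA0 : 0 ≤ A := tsum_nonneg fun n => by positivity
  have hB0 : 0 ≤ B := tsum_nonneg fun n => by positivity
  refine ⟨A + 4 * B + 1, by linarith, fun z hz => ?_⟩
  set m : ℤ := round (|z.im|) with hm
  have hmr : |(|z.im|) - m| ≤ 1 / 2 := abs_sub_round _
  have hs1 : Summable fun n : ℕ => 1 / (1 + (((n : ℤ) + 1 - m : ℤ) : ℝ) ^ 2) := by
    have hinj : Function.Injective fun n : ℕ => ((n : ℤ) + 1 - m : ℤ) := by
      intro i j hij
      simp only at hij
      omega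
    exact summable_int.comp_injective hinj
  have hle1 : ∑' n : ℕ, 1 / (1 + (((n : ℤ) + 1 - m : ℤ) : ℝ) ^ 2) ≤ B := by
    have hinj : Function.Injective fun n : ℕ => ((n : ℤ) + 1 - m : ℤ) := by
      intro i j hij
      simp only at hij
      omega
    exact Summable.tsum_le_tsum_of_inj (fun n : ℕ => ((n : ℤ) + 1 - m : ℤ)) hinj
      (fun c _ => by positivity) (fun n => le_rfl) hs1 summable_int
  have hbound : Summable fun n : ℕ => 1 / ((n : ℝ) + 1) ^ 2
      + 4 * (1 / (1 + (((n : ℤ) + 1 - m : ℤ) : ℝ) ^ 2)) := summable_sq.add (hs1.mul_left 4)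
  have h1 : ‖F a z‖ ≤ ∑' n : ℕ, (1 / ((n : ℝ) + 1) ^ 2
      + 4 * (1 / (1 + (((n : ℤ) + 1 - m : ℤ) : ℝ) ^ 2))) := by
    refine tsum_of_norm_bounded hbound.hasSum fun n => ?_
    rw [norm_div, Complex.norm_real, Real.norm_eq_abs]
    calc |a n| / ‖z ^ 2 + ((n : ℂ) + 1) ^ 2‖ ≤ 1 / ‖z ^ 2 + ((n : ℂ) + 1) ^ 2‖ :=
          div_le_div_of_nonneg_right (abs_le_one ha n) (norm_nonneg _)
      _ ≤ _ := term_bound hz n m hmr
  rw [Summable.tsum_add summable_sq (hs1.mul_left 4), tsum_mul_left] at h1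
  linarith

/-- Blaschke bound for finitely many zeros -/
private lemma blaschke {M : ℝ} (hM : 0 ≤ M) (S : Finset ℂ) : ∀ g : ℂ → ℂ,
    DifferentiableOn ℂ g (ball 0 1) → (∀ w ∈ ball (0 : ℂ) 1, ‖g w‖ ≤ M) →
    (∀ ζ ∈ S, ζ ∈ ball (0 : ℂ) 1 ∧ g ζ = 0) → ‖g 0‖ ≤ M * ∏ ζ ∈ S, ‖ζ‖ := by
  classical
  induction S using Finset.induction_on with
  | empty =>
    intro g _ hb _
    simpa using hb 0 (by simp)
  | insert ζ S hζ ih =>
    intro g hg hb hz
    obtain ⟨h1, h2⟩ := hz ζ (Finset.mem_insert_self _ _)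
    have h1' : ‖ζ‖ < 1 := mem_ball_zero_iff.mp h1
    obtain ⟨k, hk1, hk2, hk3⟩ := Pool.Agent.Y291.PA.divide hM hg hb h1' h2
    have h3 := ih k hk1 hk2 fun ξ hξ => by
      obtain ⟨h4, h5⟩ := hz ξ (Finset.mem_insert_of_mem hξ)
      refine ⟨h4, ?_⟩
      rw [hk3 ξ h4] at h5
      have h6 := Pool.Agent.Y291.PA.one_sub_ne h1'.le (mem_ball_zero_iff.mp h4)
      have h7 : ξ - ζ ≠ 0 := sub_ne_zero.mpr (fun h => hζ (h ▸ hξ))
      rcases mul_eq_zero.mp h5 with h8 | h8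
      · exact absurd h8 (div_ne_zero h7 h6)
      · exact h8
    rw [Finset.prod_insert hζ, hk3 0 (by simp)]
    have h9 : ‖(0 - ζ) / (1 - (starRingEnd ℂ) ζ * 0) * k 0‖ = ‖ζ‖ * ‖k 0‖ := by
      simp
    rw [h9]
    calc ‖ζ‖ * ‖k 0‖ ≤ ‖ζ‖ * (M * ∏ ξ ∈ S, ‖ξ‖) := mul_le_mul_of_nonneg_left h3 (norm_nonneg _)
      _ = M * (‖ζ‖ * ∏ ξ ∈ S, ‖ξ‖) := by ring

/-- finite sums over zeros are bounded -/
private lemma sum_zeros {a : ℕ → ℝ} (ha : ∀ n, a n = 1 ∨ a n = -1) {s : ℝ} (hs : 2 ≤ s)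
    (hfs : f a s ≠ 0) : ∃ C : ℝ, ∀ S : Finset ℝ, (∀ t ∈ S, s < t ∧ f a t = 0) →
      ∑ t ∈ S, 1 / t ≤ C := by
  classical
  obtain ⟨M, hM, hMb⟩ := F_bounded ha
  set c : ℝ := s - 1 with hc
  have hc1 : 1 ≤ c := by linarith
  set φ : ℂ → ℂ := fun w => 1 + c * ((1 + w) / (1 - w)) with hφ
  have hre : ∀ w ∈ ball (0 : ℂ) 1, 1 < (φ w).re := by
    intro w hw
    have hw1 : ‖w‖ < 1 := mem_ball_zero_iff.mp hw
    have hne : (1 : ℂ) - w ≠ 0 := by
      intro h
      rw [sub_eq_zero] at h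
      rw [← h] at hw1
      simp at hw1
    have h1 : ((1 + w) / (1 - w)).re = (1 - normSq w) / normSq (1 - w) := by
      rw [Complex.div_re, ← add_div]
      congr 1
      simp [normSq_apply]
      ring
    have h2 : 0 < normSq (1 - w) := normSq_pos.mpr hne
    have h3 : normSq w < 1 := by
      rw [normSq_eq_norm_sq]
      nlinarith [norm_nonneg w]
    have h4 : 0 < (1 - normSq w) / normSq (1 - w) := div_pos (by linarith) h2
    have h5 : (φ w).re = 1 + c * ((1 + w) / (1 - w)).re := by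
      simp [hφ]
    rw [h5, h1]
    have := mul_pos (by linarith : 0 < c) h4
    linarith
  set g : ℂ → ℂ := fun w => F a (φ w) with hg
  have hgd : DifferentiableOn ℂ g (ball 0 1) := by
    intro w hw
    have hw1 : ‖w‖ < 1 := mem_ball_zero_iff.mp hw
    have hne : (1 : ℂ) - w ≠ 0 := by
      intro h
      rw [sub_eq_zero] at h
      rw [← h] at hw1
      simp at hw1
    have h1 : DifferentiableAt ℂ (F a) (φ w) :=
      differentiableAt_F ha fun n => den_ne_of_re_pos (by linarith [hre w hw]) n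
    have h2 : DifferentiableAt ℂ φ w := by
      refine DifferentiableAt.const_add _ (DifferentiableAt.const_mul ?_ _)
      exact DifferentiableAt.div (by fun_prop) (by fun_prop) hne
    exact (h1.comp w h2).differentiableWithinAt
  have hgb : ∀ w ∈ ball (0 : ℂ) 1, ‖g w‖ ≤ M := fun w hw => hMb _ (hre w hw).le
  have hg0 : g 0 = ((f a s : ℝ) : ℂ) := by
    have : φ 0 = (s : ℂ) := by
      simp [hφ, hc]
    simp only [hg]
    rw [this, F_ofReal]
  have hpos : 0 < ‖g 0‖ := by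
    rw [hg0, Complex.norm_real]
    exact norm_pos_iff.mpr hfs
  refine ⟨Real.log (M / ‖g 0‖), fun S hS => ?_⟩
  -- images of the zeros
  set W : ℝ → ℂ := fun t => (((t - s) / (t + s - 2) : ℝ) : ℂ) with hW
  have hinj : Set.InjOn W S := by
    intro t ht t' ht' h
    have h1 := (hS t ht).1
    have h2 := (hS t' ht').1
    have h3 : (t - s) / (t + s - 2) = (t' - s) / (t' + s - 2) := by
      have := h
      simp only [hW] at this
      exact_mod_cast this
    rw [div_eq_div_iff (by linarith) (by linarith)] at h3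
    have h4 : (s - 1) * (t - t') = 0 := by nlinarith
    rcases mul_eq_zero.mp h4 with h5 | h5
    · linarith
    · linarith
  have hzero : ∀ ζ ∈ S.image W, ζ ∈ ball (0 : ℂ) 1 ∧ g ζ = 0 := by
    intro ζ hζ
    obtain ⟨t, ht, rfl⟩ := Finset.mem_image.mp hζ
    obtain ⟨h1, h2⟩ := hS t ht
    have h3 : 0 < t + s - 2 := by linarith
    constructor
    · rw [mem_ball_zero_iff]
      simp only [hW]
      rw [Complex.norm_real, Real.norm_eq_abs, abs_lt]
      constructor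
      · rw [lt_div_iff₀ h3]
        linarith
      · rw [div_lt_one h3]
        linarith
    · have h4 : φ (W t) = (t : ℂ) := by
        simp only [hφ, hW]
        have h5 : (1 : ℝ) + c * ((1 + (t - s) / (t + s - 2)) / (1 - (t - s) / (t + s - 2))) = t := by
          have h6 : t + s - 2 ≠ 0 := h3.ne'
          have h8 : s - 1 ≠ 0 := by
            intro h
            linarith
          have e1 : 1 + (t - s) / (t + s - 2) = 2 * (t - 1) / (t + s - 2) := by
            field_simp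
            ring
          have e2 : 1 - (t - s) / (t + s - 2) = 2 * (s - 1) / (t + s - 2) := by
            field_simp
            ring
          have e3 : (2 * (t - 1) / (t + s - 2)) / (2 * (s - 1) / (t + s - 2)) = (t - 1) / (s - 1) := by
            rw [div_div_div_cancel_right₀ h6, mul_div_mul_left _ _ (two_ne_zero)]
          rw [hc, e1, e2, e3, mul_div_cancel₀ _ h8]
          ring
        exact_mod_cast congrArg (fun x : ℝ => (x : ℂ)) h5
      simp only [hg]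
      rw [h4, F_ofReal, h2]
      simp
  have hB := blaschke hM.le (S.image W) g hgd hgb hzero
  rw [Finset.prod_image hinj] at hB
  have hprod : ∏ t ∈ S, ‖W t‖ ≤ Real.exp (-∑ t ∈ S, 1 / t) := by
    rw [← Finset.sum_neg_distrib, Real.exp_sum]
    refine Finset.prod_le_prod (fun _ _ => norm_nonneg _) fun t ht => ?_
    obtain ⟨h1, h2⟩ := hS t ht
    have h3 : 0 < t + s - 2 := by linarith
    have h4 : 0 < t := by linarith
    simp only [hW]
    rw [Complex.norm_real, Real.norm_of_nonneg (div_nonneg (by linarith) h3.le)]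
    have h5 : (t - s) / (t + s - 2) ≤ 1 - 1 / t := by
      rw [one_sub_div h4.ne', div_le_div_iff₀ h3 h4]
      nlinarith
    have h6 := Real.add_one_le_exp (-(1 / t))
    linarith
  have h7 : ‖g 0‖ ≤ M * Real.exp (-∑ t ∈ S, 1 / t) :=
    hB.trans (mul_le_mul_of_nonneg_left hprod hM.le)
  rw [Real.exp_neg, ← div_eq_mul_inv, le_div_iff₀ (Real.exp_pos _)] at h7
  rw [Real.le_log_iff_exp_le (div_pos hM hpos), le_div_iff₀ hpos, mul_comm]
  exact h7

/-- the strip -/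
private lemma strip_facts {a : ℕ → ℝ} (ha : ∀ n, a n = 1 ∨ a n = -1) :
    AnalyticOnNhd ℂ (F a) {z : ℂ | |z.im| < 1} ∧ IsPreconnected {z : ℂ | |z.im| < 1} := by
  have hset : {z : ℂ | |z.im| < 1} = {z : ℂ | -1 < z.im} ∩ {z : ℂ | z.im < 1} := by
    ext z
    simp [abs_lt]
  have hopen : IsOpen {z : ℂ | |z.im| < 1} :=
    isOpen_lt (continuous_abs.comp Complex.continuous_im) continuous_const
  constructor
  · refine DifferentiableOn.analyticOnNhd (fun z hz => ?_) hopen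
    exact (differentiableAt_F ha fun n => den_ne_of_strip hz n).differentiableWithinAt
  · rw [hset]
    exact ((convex_halfSpace_im_gt (-1)).inter (convex_halfSpace_im_lt 1)).isPreconnected

private lemma F_zero_ne {a : ℕ → ℝ} (ha : ∀ n, a n = 1 ∨ a n = -1) : F a 0 ≠ 0 := by
  have h1 : F a 0 = ((f a 0 : ℝ) : ℂ) := by
    rw [← F_ofReal]; simp
  rw [h1]
  intro h
  have h2 : f a 0 = 0 := by exact_mod_cast h
  have hz : HasSum (fun n : ℕ => 1 / ((n : ℝ) + 1) ^ 2) (Real.pi ^ 2 / 6) := by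
    have h3 := hasSum_zeta_two
    have h4 := (hasSum_nat_add_iff' 1).mpr h3
    simpa using h4
  have hs : Summable fun n : ℕ => a n / ((0 : ℝ) ^ 2 + ((n : ℝ) + 1) ^ 2) := by
    refine Summable.of_norm_bounded summable_sq fun n => ?_
    rw [norm_div, Real.norm_eq_abs, Real.norm_eq_abs,
      abs_of_nonneg (by positivity : (0 : ℝ) ≤ 0 ^ 2 + ((n : ℝ) + 1) ^ 2)]
    have : (0 : ℝ) ^ 2 + ((n : ℝ) + 1) ^ 2 = ((n : ℝ) + 1) ^ 2 := by ring
    rw [this]
    exact div_le_div_of_nonneg_right (abs_le_one ha n) (by positivity)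
  unfold f at h2
  rw [hs.tsum_eq_zero_add] at h2
  have hs' := (summable_nat_add_iff 1).mpr hs
  have hz' : Summable fun n : ℕ => 1 / (((n + 1 : ℕ) : ℝ) + 1) ^ 2 :=
    (summable_nat_add_iff 1).mpr summable_sq
  have hle : |∑' n : ℕ, a (n + 1) / ((0 : ℝ) ^ 2 + (((n + 1 : ℕ) : ℝ) + 1) ^ 2)|
      ≤ ∑' n : ℕ, 1 / (((n + 1 : ℕ) : ℝ) + 1) ^ 2 := by
    rw [← Real.norm_eq_abs]
    refine tsum_of_norm_bounded hz'.hasSum fun n => ?_
    rw [norm_div, Real.norm_eq_abs, Real.norm_eq_abs,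
      abs_of_nonneg (by positivity : (0 : ℝ) ≤ 0 ^ 2 + (((n + 1 : ℕ) : ℝ) + 1) ^ 2)]
    have : (0 : ℝ) ^ 2 + (((n + 1 : ℕ) : ℝ) + 1) ^ 2 = (((n + 1 : ℕ) : ℝ) + 1) ^ 2 := by ring
    rw [this]
    exact div_le_div_of_nonneg_right (abs_le_one ha (n + 1)) (by positivity)
  have htail : ∑' n : ℕ, 1 / (((n + 1 : ℕ) : ℝ) + 1) ^ 2 = Real.pi ^ 2 / 6 - 1 := by
    have h3 := hz.tsum_eq
    rw [summable_sq.tsum_eq_zero_add] at h3
    norm_num at h3
    have : ∑' n : ℕ, 1 / (((n + 1 : ℕ) : ℝ) + 1) ^ 2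
        = ∑' n : ℕ, (((n : ℝ) + 1 + 1) ^ 2)⁻¹ := by
      refine tsum_congr fun n => ?_
      push_cast
      rw [one_div]
    rw [this]
    linarith
  rw [htail] at hle
  have hpi : Real.pi ^ 2 / 6 - 1 < 1 := by
    have := Real.pi_lt_d2
    have := Real.pi_pos
    nlinarith
  have h5 := abs_lt.mp (lt_of_le_of_lt hle hpi)
  rcases ha 0 with h6 | h6
  · rw [h6] at h2
    norm_num at h2 h5
    linarith [h5.1]
  · rw [h6] at h2
    norm_num at h2 h5
    linarith [h5.2]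

/-- the zeros have no accumulation point -/
private lemma finite_zeros {a : ℕ → ℝ} (ha : ∀ n, a n = 1 ∨ a n = -1) (A B : ℝ) :
    {t : ℝ | t ∈ Set.Icc A B ∧ f a t = 0}.Finite := by
  by_contra hinf
  have hinf' : {t : ℝ | t ∈ Set.Icc A B ∧ f a t = 0}.Infinite := hinf
  obtain ⟨x, -, hx⟩ := hinf'.exists_accPt_of_subset_isCompact isCompact_Icc
    (fun t ht => ht.1)
  rw [accPt_iff_frequently_nhdsNE] at hx
  have hmap : Tendsto (fun t : ℝ => (t : ℂ)) (𝓝[≠] x) (𝓝[≠] (x : ℂ)) := by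
    refine tendsto_nhdsWithin_iff.mpr ⟨?_, ?_⟩
    · exact (Complex.continuous_ofReal.tendsto x).mono_left nhdsWithin_le_nhds
    · filter_upwards [self_mem_nhdsWithin] with t ht
      simpa using ht
  have hfreq : ∃ᶠ z in 𝓝[≠] (x : ℂ), F a z = 0 := by
    refine hmap.frequently (hx.mono fun t ht => ?_)
    rw [F_ofReal, ht.2]
    simp
  obtain ⟨h1, h2⟩ := strip_facts ha
  have h3 := h1.eqOn_zero_of_preconnected_of_frequently_eq_zero h2 (z₀ := (x : ℂ)) (by simp) hfreq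
  exact F_zero_ne ha (h3 (by simp : (0 : ℂ) ∈ {z : ℂ | |z.im| < 1}))

/-- `f_a` is even -/
private lemma f_neg (a : ℕ → ℝ) (t : ℝ) : f a (-t) = f a t := by
  unfold f
  simp

/-- For every sign sequence `a` the number `Z_a(X)` of distinct real zeros of `f_a` in `(-X, X)` is
finite and `Z_a(X) / X → 0` as `X → ∞`. -/
theorem result : ∀ a : ℕ → ℝ, (∀ n, a n = 1 ∨ a n = -1) →
    (∀ X : ℝ, {t : ℝ | |t| < X ∧ f a t = 0}.Finite) ∧
    Tendsto (fun X : ℝ => ({t : ℝ | |t| < X ∧ f a t = 0}.ncard : ℝ) / X) atTop (𝓝 0) := by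
  intro a ha
  have hfin : ∀ X : ℝ, {t : ℝ | |t| < X ∧ f a t = 0}.Finite := by
    intro X
    refine (finite_zeros ha (-X) X).subset fun t ht => ?_
    exact ⟨⟨(abs_lt.mp ht.1).1.le, (abs_lt.mp ht.1).2.le⟩, ht.2⟩
  refine ⟨hfin, ?_⟩
  -- a base point
  obtain ⟨s, hs2, hs3, hfs⟩ : ∃ s : ℝ, 2 ≤ s ∧ s ≤ 3 ∧ f a s ≠ 0 := by
    by_contra hcon
    push Not at hcon
    have h1 := finite_zeros ha 2 3
    have h2 : {t : ℝ | t ∈ Set.Icc (2 : ℝ) 3 ∧ f a t = 0} = Set.Icc (2 : ℝ) 3 := by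
      ext t
      constructor
      · exact fun h => h.1
      · exact fun h => ⟨h, hcon t h.1 h.2⟩
    rw [h2] at h1
    exact (Set.Icc_infinite (by norm_num : (2 : ℝ) < 3)) h1
  obtain ⟨C, hC⟩ := sum_zeros ha hs2 hfs
  -- the sum over the zeros beyond `s` converges
  have hsum : Summable fun t : {t : ℝ // s < t ∧ f a t = 0} => 1 / (t : ℝ) := by
    refine summable_of_sum_le (c := C) (fun t => ?_) fun u => ?_
    · have : 0 < (t : ℝ) := by linarith [t.2.1]
      positivity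
    · have h1 := hC (u.map (Function.Embedding.subtype _)) (by
        intro t ht
        obtain ⟨t', _, rfl⟩ := Finset.mem_map.mp ht
        exact t'.2)
      rw [Finset.sum_map] at h1
      exact h1
  rw [Metric.tendsto_atTop]
  intro ε hε
  obtain ⟨S0, hS0⟩ := summable_iff_vanishing_norm.mp hsum (ε / 8) (by linarith)
  set K0 : ℕ := {t : ℝ | t ∈ Set.Icc (-s) s ∧ f a t = 0}.ncard with hK0
  -- counting the zeros in `(s, X)`
  have hcount : ∀ X : ℝ, 0 < X →
      ({t : ℝ | s < t ∧ t < X ∧ f a t = 0}.ncard : ℝ) ≤ S0.card + X * (ε / 8) := by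
    intro X hX
    classical
    have hf : {t : ℝ | s < t ∧ t < X ∧ f a t = 0}.Finite :=
      (hfin X).subset fun t ht => ⟨abs_lt.mpr ⟨by linarith [ht.1, ht.2.1], ht.2.1⟩, ht.2.2⟩
    have hf2 : {t : {t : ℝ // s < t ∧ f a t = 0} | (t : ℝ) < X}.Finite := by
      refine Set.Finite.of_finite_image (f := Subtype.val) (hf.subset ?_)
        Subtype.val_injective.injOn
      rintro _ ⟨t, ht, rfl⟩
      exact ⟨t.2.1, ht, t.2.2⟩
    set U := hf2.toFinset with hU
    have hcard : {t : ℝ | s < t ∧ t < X ∧ f a t = 0}.ncard = U.card := by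
      have himg : {t : ℝ | s < t ∧ t < X ∧ f a t = 0}
          = Subtype.val '' {t : {t : ℝ // s < t ∧ f a t = 0} | (t : ℝ) < X} := by
        ext t
        constructor
        · rintro ⟨h1, h2, h3⟩
          exact ⟨⟨t, h1, h3⟩, h2, rfl⟩
        · rintro ⟨t', h1, rfl⟩
          exact ⟨t'.2.1, h1, t'.2.2⟩
      rw [himg, Set.ncard_image_of_injective _ Subtype.val_injective,
        Set.ncard_eq_toFinset_card _ hf2]
    have h1 : (U \ S0).card * (1 / X) ≤ ∑ t ∈ U \ S0, 1 / (t : ℝ) := by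
      rw [← nsmul_eq_mul]
      refine Finset.card_nsmul_le_sum _ _ _ fun t ht => ?_
      have h2 : (t : ℝ) < X := by
        have := (Finset.mem_sdiff.mp ht).1
        rw [hU, Set.Finite.mem_toFinset] at this
        exact this
      have h3 : 0 < (t : ℝ) := by linarith [t.2.1]
      exact one_div_le_one_div_of_le h3 h2.le
    have h2 := hS0 (U \ S0) Finset.sdiff_disjoint
    have h3 : ∑ t ∈ U \ S0, 1 / (t : ℝ) < ε / 8 := (le_abs_self _).trans_lt h2
    have h4 : ((U \ S0).card : ℝ) ≤ X * (ε / 8) := by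
      have h5 : ((U \ S0).card : ℝ) * (1 / X) ≤ ε / 8 := h1.trans h3.le
      rw [mul_one_div, div_le_iff₀ hX] at h5
      linarith
    have h5 : U.card ≤ S0.card + (U \ S0).card := by
      have := Finset.card_le_card_sdiff_add_card (s := U) (t := S0)
      omega
    rw [hcard]
    have h6 : (U.card : ℝ) ≤ S0.card + (U \ S0).card := by exact_mod_cast h5
    linarith
  -- the total count
  have htotal : ∀ X : ℝ, 0 < X →
      ({t : ℝ | |t| < X ∧ f a t = 0}.ncard : ℝ) ≤ K0 + 2 * (S0.card + X * (ε / 8)) := by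
    intro X hX
    have hsub : {t : ℝ | |t| < X ∧ f a t = 0} ⊆
        {t : ℝ | t ∈ Set.Icc (-s) s ∧ f a t = 0} ∪
          ({t : ℝ | s < t ∧ t < X ∧ f a t = 0} ∪
            (fun t => -t) '' {t : ℝ | s < t ∧ t < X ∧ f a t = 0}) := by
      intro t ht
      obtain ⟨h1, h2⟩ := ht
      rcases le_or_gt t s with h3 | h3
      · rcases le_or_gt (-s) t with h4 | h4
        · left
          exact ⟨⟨h4, h3⟩, h2⟩
        · right; right
          refine ⟨-t, ⟨by linarith, by linarith [(abs_lt.mp h1).1], ?_⟩, by ring⟩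
          rw [f_neg]
          exact h2
      · right; left
        exact ⟨h3, (abs_lt.mp h1).2, h2⟩
    have hf : {t : ℝ | s < t ∧ t < X ∧ f a t = 0}.Finite :=
      (hfin X).subset fun t ht => ⟨abs_lt.mpr ⟨by linarith [ht.1, ht.2.1], ht.2.1⟩, ht.2.2⟩
    have h1 := Set.ncard_le_ncard hsub ((finite_zeros ha (-s) s).union (hf.union (hf.image _)))
    have h2 := Set.ncard_union_le {t : ℝ | t ∈ Set.Icc (-s) s ∧ f a t = 0}
      ({t : ℝ | s < t ∧ t < X ∧ f a t = 0} ∪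
            (fun t => -t) '' {t : ℝ | s < t ∧ t < X ∧ f a t = 0})
    have h3 := Set.ncard_union_le {t : ℝ | s < t ∧ t < X ∧ f a t = 0}
      ((fun t => -t) '' {t : ℝ | s < t ∧ t < X ∧ f a t = 0})
    have h4 : ((fun t : ℝ => -t) '' {t : ℝ | s < t ∧ t < X ∧ f a t = 0}).ncard
        = {t : ℝ | s < t ∧ t < X ∧ f a t = 0}.ncard :=
      Set.ncard_image_of_injective _ neg_injective
    have h5 := hcount X hX
    have h6 : {t : ℝ | |t| < X ∧ f a t = 0}.ncard
        ≤ K0 + 2 * {t : ℝ | s < t ∧ t < X ∧ f a t = 0}.ncard := by omega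
    have h7 : ({t : ℝ | |t| < X ∧ f a t = 0}.ncard : ℝ)
        ≤ K0 + 2 * ({t : ℝ | s < t ∧ t < X ∧ f a t = 0}.ncard : ℝ) := by exact_mod_cast h6
    linarith
  refine ⟨max 1 (4 * (K0 + 2 * S0.card) / ε), fun X hX => ?_⟩
  have hX1 : 1 ≤ X := (le_max_left _ _).trans hX
  have hX2 : 4 * (K0 + 2 * S0.card) / ε ≤ X := (le_max_right _ _).trans hX
  have hX0 : 0 < X := by linarith
  rw [Real.dist_eq, sub_zero, abs_of_nonneg (by positivity)]
  rw [div_lt_iff₀ hX0]
  have h1 := htotal X hX0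
  rw [div_le_iff₀ hε] at hX2
  nlinarith

end Pool.Agent.Results.MP_51e19e_an.FewZeros
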